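import Pool.Agent.P.MP_847604_al.H80Thin

/-! Normal subgroups of virtually pronilpotent groups. -/

set_option autoImplicit false

namespace Pool.Agent.P.MP_847604_al.H80

open Set Topology Filter
open scoped Pointwise commutatorElement

variable {G : Type*} [Group G]

/-- Products of conjugates, by elements of `K`, of the members of a list. -/
def pr (K : Subgroup G) : List G → Set G
  | [] => {1}
  | x :: l => (fun k => k * x * k⁻¹) '' K * pr K l

theorem prod_mem_pr (K : Subgroup G) : ∀ l : List G, l.prod ∈ pr K l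
  | [] => rfl
  | _ :: l => mul_mem_mul ⟨1, one_mem _, by simp⟩ (prod_mem_pr K l)

theorem pr_sub (K : Subgroup G) {N : Subgroup G} (hN : N.Normal) :
    ∀ l : List G, (∀ x ∈ l, x ∈ N) → pr K l ⊆ N
  | [], _ => singleton_subset_iff.2 (one_mem _)
  | x :: l, h => by
    rintro _ ⟨_, ⟨k, _, rfl⟩, b, hb, rfl⟩
    exact mul_mem (hN.conj_mem _ (h x (by simp)) k)
      (pr_sub K hN l (fun y hy => h y (by simp [hy])) hb)

section central

variable {H : Type*} [Group H] (π : G →* H) {K L : Subgroup G} (hL : L ≤ K)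
  (hc : ∀ a ∈ L, ∀ g ∈ K, ∀ h ∈ K, Commute (π ⁅a, g⁆) (π h))

include hL hc

theorem shift_one {a x : G} (ha : a ∈ L) : ∀ l : List G, (∀ y ∈ l, y ∈ K) → x ∈ l →
    ∀ s ∈ pr K l, ∃ t ∈ pr K l, π t = π ⁅a, x⁆ * π s
  | [], _, h => by simp at h
  | y :: l, hl, h => by
    rintro _ ⟨_, ⟨k, hk, rfl⟩, b, hb, rfl⟩
    have hx := hl x h
    rcases List.mem_cons.1 h with rfl | h
    · refine ⟨_, mul_mem_mul ⟨k * a, mul_mem hk (hL ha), rfl⟩ hb, ?_⟩
      have e : k * a * x * (k * a)⁻¹ * b = k * ⁅a, x⁆ * (x * k⁻¹ * b) := by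
        rw [commutatorElement_def]
        group
      simp only
      rw [e, map_mul, map_mul π k, ← (hc a ha x hx k hk).eq]
      simp only [map_mul, mul_assoc]
    · obtain ⟨t, t1, t2⟩ := shift_one ha l (fun z hz => hl z (by simp [hz])) h b hb
      refine ⟨_, mul_mem_mul ⟨k, hk, rfl⟩ t1, ?_⟩
      have e := hc a ha x hx _ (mul_mem (mul_mem hk (hl y (by simp))) (inv_mem hk))
      simp only
      rw [map_mul, t2, ← mul_assoc, ← e.eq, mul_assoc, ← map_mul]

omit hL in
theorem comm_mul {a x y : G} (ha : a ∈ L) (hx : x ∈ K) (hy : y ∈ K) :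
    π ⁅a, x * y⁆ = π ⁅a, x⁆ * π ⁅a, y⁆ := by
  have e : ⁅a, x * y⁆ = ⁅a, x⁆ * (x * ⁅a, y⁆ * x⁻¹) := by
    simp only [commutatorElement_def]
    group
  rw [e, map_mul, map_mul, map_mul, ← (hc a ha y hy x hx).eq, mul_assoc, ← map_mul π x]
  simp

theorem comm_der {a q : G} (ha : a ∈ L) (hq : q ∈ ⁅K, K⁆) : π ⁅a, q⁆ = 1 := by
  have i (x : G) (hx : x ∈ K) : π ⁅a, x⁻¹⁆ = (π ⁅a, x⁆)⁻¹ := by
    rw [eq_inv_iff_mul_eq_one, ← comm_mul π hc ha (inv_mem hx) hx]
    simp
  have s : ∀ y ∈ ⁅K, K⁆, y ∈ K := fun y hy => Subgroup.commutator_le_self K hy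
  induction hq using Subgroup.closure_induction with
  | mem _ h =>
    obtain ⟨x, hx, y, hy, rfl⟩ := h
    have c := hc a ha x hx _ (s _ (Subgroup.commutator_mem_commutator (hL ha) hy))
    rw [commutatorElement_def x, comm_mul π hc ha (mul_mem (mul_mem hx hy) (inv_mem hx))
      (inv_mem hy), comm_mul π hc ha (mul_mem hx hy) (inv_mem hx), comm_mul π hc ha hx hy,
      i x hx, i y hy, c.eq, mul_inv_cancel_right, mul_inv_cancel]
  | one => simp
  | mul x y hx hy a1 a2 => rw [comm_mul π hc ha (s x hx) (s y hy), a1, a2, mul_one]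
  | inv x hx a1 => rw [i x (s x hx), a1, inv_one]

theorem shift {l : List G} (hl : ∀ y ∈ l, y ∈ K)
    (hv : ∀ g ∈ K, ∃ x ∈ l, ∃ q ∈ ⁅K, K⁆, π g = π (x * q)) {z : G} (hz : z ∈ ⁅L, K⁆) :
    ∀ s ∈ pr K l, ∃ t ∈ pr K l, π t = π z * π s := by
  have b (a : G) (ha : a ∈ L) (g : G) (hg : g ∈ K) :
      ∀ s ∈ pr K l, ∃ t ∈ pr K l, π t = π ⁅a, g⁆ * π s := by
    obtain ⟨x, hx, q, hq, e⟩ := hv g hg
    rw [map_commutatorElement, e, ← map_commutatorElement, comm_mul π hc ha (hl x hx)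
      (Subgroup.commutator_le_self K hq), comm_der π hL hc ha hq, mul_one]
    exact shift_one π hL hc ha l hl hx
  induction hz using Subgroup.closure_induction'' with
  | mem _ h =>
    obtain ⟨a, ha, g, hg, rfl⟩ := h
    exact b a ha g hg
  | inv_mem _ h =>
    obtain ⟨a, ha, g, hg, rfl⟩ := h
    have e : π ⁅a, g⁆⁻¹ = π ⁅a, g⁻¹⁆ := by
      rw [map_inv, inv_eq_iff_mul_eq_one, ← comm_mul π hc ha hg (inv_mem hg)]
      simp
    rw [e]
    exact b a ha _ (inv_mem hg)
  | one => exact fun s hs => ⟨s, hs, by simp⟩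
  | mul x y _ _ hx hy =>
    intro s hs
    obtain ⟨t, t1, t2⟩ := hy s hs
    obtain ⟨u, u1, u2⟩ := hx t t1
    exact ⟨u, u1, by rw [u2, t2, map_mul, mul_assoc]⟩

end central

theorem approx {K V : Subgroup G} [K.Normal] [V.Normal] {l : List G} (hl : ∀ y ∈ l, y ∈ K)
    (hv : ∀ g ∈ K, ∃ x ∈ l, x⁻¹ * g ∈ ⁅K, K⁆ ⊔ V) {w : G} (hw : w ∈ ⁅K, K⁆) (j : ℕ) :
    ∃ t ∈ pr K l, t⁻¹ * (w * l.prod) ∈ K.lowerCentralSeries (j + 1) ⊔ V := by
  induction j with
  | zero =>
    refine ⟨_, prod_mem_pr K l, Subgroup.mem_sup_left ?_⟩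
    simpa [mul_assoc] using (inferInstance : ⁅K, K⁆.Normal).conj_mem _ hw l.prod⁻¹
  | succ j ih =>
    obtain ⟨t, t1, t2⟩ := ih
    obtain ⟨z, hz, v, v1, e⟩ := Subgroup.mem_sup_of_normal_right.1 t2
    let M := K.lowerCentralSeries (j + 2) ⊔ V
    have k (v : G) (h : v ∈ V) : QuotientGroup.mk' M v = 1 :=
      (QuotientGroup.eq_one_iff v).2 (Subgroup.mem_sup_right h)
    obtain ⟨u, u1, u2⟩ := shift (QuotientGroup.mk' M) (L := K.lowerCentralSeries j)
      (K.lowerCentralSeries_antitone (Nat.zero_le j)) (fun a ha g hg h hh => by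
        rw [← commutatorElement_eq_one_iff_commute, ← map_commutatorElement]
        exact (QuotientGroup.eq_one_iff _).2 (Subgroup.mem_sup_left
          (Subgroup.commutator_mem_commutator (Subgroup.commutator_mem_commutator ha hg) hh))) hl
      (fun g hg => by
        obtain ⟨x, hx, h⟩ := hv g hg
        obtain ⟨q, hq, v, v1, e⟩ := Subgroup.mem_sup_of_normal_right.1 h
        exact ⟨x, hx, q, hq, by
          rw [← mul_inv_cancel_left x g, ← e, ← mul_assoc, map_mul _ _ v, k v v1, mul_one]⟩)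
      ((inferInstance : (K.lowerCentralSeries (j + 1)).Normal).conj_mem z hz t) t t1
    refine ⟨u, u1, QuotientGroup.eq.1 (u2.trans ?_)⟩
    change _ = QuotientGroup.mk' M _
    rw [← mul_inv_cancel_left t (w * l.prod), ← e, ← map_mul, ← mul_assoc t z v, map_mul _ _ v,
      k v v1, mul_one, inv_mul_cancel_right]

variable [TopologicalSpace G]

theorem compact_pr [IsTopologicalGroup G] [CompactSpace G] {K : Subgroup G}
    (hK : IsClosed (K : Set G)) : ∀ l : List G, IsCompact (pr K l)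
  | [] => isCompact_singleton
  | _ :: l => (hK.isCompact.image (by fun_prop)).mul (compact_pr hK l)

theorem open_of_dense [NonarchimedeanGroup G] [CompactSpace G] [T2Space G] {N : Subgroup G}
    [hN : N.Normal] (hnil : ∀ V : Subgroup G, V.Normal → IsOpen (V : Set G) →
      ∃ c, N.topologicalClosure.lowerCentralSeries c ≤ V)
    (ho : IsOpen (⁅N.topologicalClosure, N.topologicalClosure⁆.topologicalClosure : Set G)) :
    IsOpen (N : Set G) := by
  have := N.is_normal_topologicalClosure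
  set K := N.topologicalClosure
  set C := ⁅K, K⁆.topologicalClosure
  have := C.quotient_finite_of_isOpen ho
  have := Fintype.ofFinite (G ⧸ C)
  have : ∀ q : G ⧸ C, ∃ x ∈ N, ∀ g ∈ K, (g : G ⧸ C) = q → x⁻¹ * g ∈ C := fun q => by
    by_cases h : ∃ g ∈ K, (g : G ⧸ C) = q
    · obtain ⟨g, hg, rfl⟩ := h
      obtain ⟨x, x1, x2⟩ := mem_closure_iff.1 hg ((fun x => x⁻¹ * g) ⁻¹' C)
        (ho.preimage (by fun_prop)) (by simp)
      exact ⟨x, x2, fun g' _ e => QuotientGroup.eq.1 ((QuotientGroup.eq.2 x1).trans e.symm)⟩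
    · exact ⟨1, one_mem _, fun g hg e => (h ⟨g, hg, e⟩).elim⟩
  choose r r1 r2 using this
  let l := Finset.univ.toList.map r
  have hl : ∀ x ∈ l, x ∈ N := fun x hx => by
    obtain ⟨q, _, rfl⟩ := List.mem_map.1 hx
    exact r1 q
  have cl := (compact_pr N.isClosed_topologicalClosure l).isClosed
  refine Subgroup.isOpen_mono (fun w hw => ?_) ho
  refine (mul_mem_cancel_right (pr_sub K hN l hl (prod_mem_pr K l))).1 (pr_sub K hN l hl
    (closure_minimal (t := (· * l.prod) ⁻¹' pr K l) (fun w hw => ?_)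
      (cl.preimage (continuous_mul_const _)) hw))
  refine cl.closure_subset (mem_closure_iff_nhds.2 fun U hU => ?_)
  obtain ⟨V, v1, v2, v3⟩ := exists_normal (U := (fun v => w * l.prod * v⁻¹) ⁻¹' U)
    ((by fun_prop : Continuous fun v : G => w * l.prod * v⁻¹).continuousAt.preimage_mem_nhds
      (by simpa using hU))
  obtain ⟨c, hc⟩ := hnil V v1 v2
  obtain ⟨t, t1, t2⟩ := approx (V := V) (fun x hx => N.le_topologicalClosure (hl x hx))
    (fun g hg => ⟨r g, List.mem_map.2 ⟨_, by simp, rfl⟩, Subgroup.topologicalClosure_minimal _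
      le_sup_left (Subgroup.isClosed_of_isOpen _ (Subgroup.isOpen_mono le_sup_right v2))
      (r2 _ g hg rfl)⟩) hw c
  have := v3 (sup_le ((K.lowerCentralSeries_antitone (Nat.le_succ c)).trans hc) le_rfl t2)
  exact ⟨t, by simpa [mul_assoc] using this, t1⟩

theorem abelian_of_finite [NonarchimedeanGroup G] [T2Space G] {K : Subgroup G}
    (hK : IsOpen (K : Set G)) (h : Finite (⁅K, K⁆ : Subgroup G)) :
    ∃ A : Subgroup G, IsOpen (A : Set G) ∧ ∀ a ∈ A, ∀ b ∈ A, a * b = b * a := by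
  have f : ((⁅K, K⁆ : Subgroup G) \ {1} : Set G).Finite := (toFinite _).sdiff
  obtain ⟨U, hU, W, hW, e⟩ := mem_nhds_prod_iff.1
    ((by simp only [commutatorElement_def]; fun_prop :
      Continuous fun p : G × G => ⁅p.1, p.2⁆).continuousAt.preimage_mem_nhds (x := (1, 1))
      (f.isClosed.isOpen_compl.mem_nhds (by simp)))
  obtain ⟨A, hA⟩ := NonarchimedeanGroup.is_nonarchimedean _
    (inter_mem (hK.mem_nhds (one_mem _)) (inter_mem hU hW))
  refine ⟨A, A.isOpen, fun a ha b hb => commutatorElement_eq_one_iff_mul_comm.1 ?_⟩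
  by_contra h
  exact e (mk_mem_prod (hA ha).2.1 (hA hb).2.2)
    ⟨Subgroup.commutator_mem_commutator (hA ha).1 (hA hb).1, h⟩

theorem of_closed [NonarchimedeanGroup G] [CompactSpace G] [T2Space G] {P : Subgroup G}
    (hP : IsOpen (P : Set G)) (hnil : ∀ V : OpenNormalSubgroup G,
      Group.IsNilpotent (P.map (QuotientGroup.mk' V.toSubgroup)))
    (hc : ∀ N : Subgroup G, N.Normal → IsClosed (N : Set G) → Finite N ∨ IsOpen (N : Set G))
    (ha : ¬ ∃ A : Subgroup G, IsOpen (A : Set G) ∧ ∀ a ∈ A, ∀ b ∈ A, a * b = b * a)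
    (N : Subgroup G) (hN : N.Normal) : Finite N ∨ IsOpen (N : Set G) := by
  obtain ⟨Q, q1, q2, q3⟩ := exists_normal (hP.mem_nhds (one_mem _))
  refine or_iff_not_imp_left.2 fun hi => Subgroup.isOpen_mono (H₁ := N ⊓ Q) inf_le_left ?_
  have := (N ⊓ Q).is_normal_topologicalClosure
  have k : (N ⊓ Q).topologicalClosure ≤ P := Subgroup.topologicalClosure_minimal _
    (inf_le_right.trans q3) (P.isClosed_of_isOpen hP)
  have o := (hc _ this (N ⊓ Q).isClosed_topologicalClosure).resolve_left fun h => hi <| by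
    have := Q.quotient_finite_of_isOpen q2
    have : Q.FiniteIndex := Subgroup.finiteIndex_of_finite_quotient
    have : Finite (Q.subgroupOf N) := .of_injective
      (fun x => (⟨x.1, (N ⊓ Q).le_topologicalClosure ⟨x.1.2, x.2⟩⟩ : (N ⊓ Q).topologicalClosure))
      fun x y e => Subtype.ext (Subtype.ext (congrArg (·.1) e))
    exact Finite.of_subgroup_quotient (Q.subgroupOf N)
  refine open_of_dense (fun V v1 v2 => ?_) ((hc _ (Subgroup.is_normal_topologicalClosure _)
    (Subgroup.isClosed_topologicalClosure _)).resolve_left fun h => ha (abelian_of_finite o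
      (.of_injective _ (Subgroup.inclusion_injective (Subgroup.le_topologicalClosure _)))))
  obtain ⟨c, e⟩ := (Subgroup.isNilpotent_iff_lowerCentralSeries _).1 (hnil ⟨⟨V, v2⟩, v1⟩)
  rw [← Subgroup.map_lowerCentralSeries, Subgroup.map_eq_bot_iff, QuotientGroup.ker_mk'] at e
  exact ⟨c, (Subgroup.lowerCentralSeries_mono c k).trans e⟩

theorem open_le_fc [IsTopologicalGroup G] [CompactSpace G] [T2Space G] {A : Subgroup G}
    (hA : IsOpen (A : Set G)) (h : ∀ a ∈ A, ∀ b ∈ A, a * b = b * a) : A ≤ fc G := fun g hg => by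
  have := A.quotient_finite_of_isOpen hA
  refine (finite_range fun q : G ⧸ A => q.out * g * q.out⁻¹).subset ?_
  rintro _ ⟨c, rfl⟩
  refine ⟨c, ?_⟩
  have e := h _ (QuotientGroup.eq.1 (QuotientGroup.out_eq' (c : G ⧸ A))) g hg
  simp only
  generalize (c : G ⧸ A).out = a at e ⊢
  calc a * g * a⁻¹ = a * (g * (a⁻¹ * c)) * c⁻¹ := by group
    _ = c * g * c⁻¹ := by rw [← e]; group

end Pool.Agent.P.MP_847604_al.H80
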