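import Mathlib

/-! Normal subgroups of compact metrizable non-archimedean groups: the thin subgroup built from
finite conjugacy classes, and normal closures of infinite conjugacy classes. -/

set_option autoImplicit false

namespace Pool.Agent.P.MP_847604_al.H80

open Set Topology Filter
open scoped Pointwise

variable {G : Type*} [Group G]

/-- The conjugacy class. -/
def cl (g : G) : Set G := range fun c => c * g * c⁻¹

theorem self_mem_cl (g : G) : g ∈ cl g := ⟨1, by simp⟩

/-- The elements with a finite conjugacy class. -/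
def fc (G : Type*) [Group G] : Subgroup G where
  carrier := {g | (cl g).Finite}
  one_mem' := (finite_singleton 1).subset fun _ ⟨c, h⟩ => by simp [← h]
  mul_mem' {a b} ha hb := (Set.Finite.mul ha hb).subset fun _ ⟨c, h⟩ =>
    ⟨_, ⟨c, rfl⟩, _, ⟨c, rfl⟩, by simp only [← h]; group⟩
  inv_mem' {a} ha := (Set.Finite.inv ha).subset fun _ ⟨c, h⟩ =>
    ⟨c, by simp only [← h]; group⟩

theorem fc_conj {g : G} (h : g ∈ fc G) (c : G) : c * g * c⁻¹ ∈ fc G :=
  Set.Finite.subset h fun _ ⟨d, e⟩ => ⟨d * c, by simp only [← e]; group⟩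

/-- Symmetric and invariant under conjugation. -/
def Inv (S : Set G) : Prop := ∀ e ∈ S, e⁻¹ ∈ S ∧ ∀ c, c * e * c⁻¹ ∈ S

theorem Inv.pow {S : Set G} (h : Inv S) : ∀ n : ℕ, Inv (S ^ n)
  | 0 => fun e he => by
    rw [pow_zero, Set.mem_one] at he
    simp [he]
  | n + 1 => by
    rintro _ ⟨a, ha, b, hb, rfl⟩
    refine ⟨?_, fun c => ⟨_, (h.pow n a ha).2 c, _, (h b hb).2 c, by simp only; group⟩⟩
    rw [pow_succ']
    exact ⟨_, (h b hb).1, _, (h.pow n a ha).1, (mul_inv_rev _ _).symm⟩

theorem fin_pow {S : Set G} (h : S.Finite) : ∀ n : ℕ, (S ^ n).Finite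
  | 0 => by rw [pow_zero]; exact finite_one
  | n + 1 => by rw [pow_succ]; exact (fin_pow h n).mul h

/-- The hull of a set under inversion and conjugation. -/
def hull (S : Set G) : Set G := ⋃ e ∈ S, cl e ∪ cl e⁻¹

theorem sub_hull (S : Set G) : S ⊆ hull S := fun e he => mem_biUnion he (.inl (self_mem_cl e))

theorem inv_hull (S : Set G) : Inv (hull S) := fun e he => by
  obtain ⟨a, ha, h⟩ := mem_iUnion₂.1 he
  rcases h with ⟨c, rfl⟩ | ⟨c, rfl⟩
  · exact ⟨mem_biUnion ha (.inr ⟨c, by simp only; group⟩),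
      fun d => mem_biUnion ha (.inl ⟨d * c, by simp only; group⟩)⟩
  · exact ⟨mem_biUnion ha (.inl ⟨c, by simp only; group⟩),
      fun d => mem_biUnion ha (.inr ⟨d * c, by simp only; group⟩)⟩

variable [TopologicalSpace G]

theorem exists_normal [NonarchimedeanGroup G] [CompactSpace G] {U : Set G} (hU : U ∈ 𝓝 (1 : G)) :
    ∃ V : Subgroup G, V.Normal ∧ IsOpen (V : Set G) ∧ (V : Set G) ⊆ U := by
  obtain ⟨W, hW⟩ := NonarchimedeanGroup.is_nonarchimedean U hU
  have : W.toSubgroup.FiniteIndex := Subgroup.finiteIndex_of_finite_quotient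
  exact ⟨W.toSubgroup.normalCore, inferInstance, Subgroup.isOpen_of_isClosed_of_finiteIndex _
    (W.toSubgroup.normalCore_isClosed W.isClosed), fun x hx => hW (W.toSubgroup.normalCore_le hx)⟩

theorem baire [IsTopologicalGroup G] [CompactSpace G] [T2Space G] (N : Subgroup G)
    [Countable (G ⧸ N)] (K : ℕ → Set G) (hK : ∀ n, IsClosed (K n)) (hN : (N : Set G) ⊆ ⋃ n, K n) :
    ∃ n, (interior (K n)).Nonempty := by
  obtain ⟨⟨q, n⟩, y, hy⟩ := nonempty_interior_of_iUnion_of_closed
    (f := fun p : (G ⧸ N) × ℕ => Homeomorph.mulLeft p.1.out⁻¹ ⁻¹' K p.2)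
    (fun p => (hK p.2).preimage (Homeomorph.continuous _)) (eq_univ_of_forall fun g => by
      obtain ⟨n, hn⟩ := mem_iUnion.1
        (hN (QuotientGroup.eq.1 (QuotientGroup.out_eq' (g : G ⧸ N))))
      exact mem_iUnion.2 ⟨((g : G ⧸ N), n), hn⟩)
  rw [← Homeomorph.preimage_interior] at hy
  exact ⟨n, _, hy⟩

theorem open_of_sigma [IsTopologicalGroup G] [CompactSpace G] [T2Space G] (N : Subgroup G)
    [Countable (G ⧸ N)] (h : IsSigmaCompact (N : Set G)) : IsOpen (N : Set G) := by
  obtain ⟨K, hK, e⟩ := h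
  obtain ⟨n, y, hy⟩ := baire N K (fun n => (hK n).isClosed) e.ge
  exact N.isOpen_of_mem_nhds (mem_of_superset (mem_interior_iff_mem_nhds.1 hy)
    ((subset_iUnion K n).trans e.le))

theorem fc_of_countable [IsTopologicalGroup G] [CompactSpace G] [T2Space G] {g : G}
    (h : (cl g).Countable) : g ∈ fc G := by
  let C := Subgroup.centralizer ({g} : Set G)
  have hC : ∀ a b : G, a⁻¹ * b ∈ C ↔ a * g * a⁻¹ = b * g * b⁻¹ := fun a b => by
    rw [Subgroup.mem_centralizer_singleton_iff]
    constructor <;> intro e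
    · calc a * g * a⁻¹ = a * (g * (a⁻¹ * b)) * b⁻¹ := by group
        _ = b * g * b⁻¹ := by rw [← e]; group
    · calc a⁻¹ * b * g = a⁻¹ * (b * g * b⁻¹) * b := by group
        _ = g * (a⁻¹ * b) := by rw [← e]; group
  have := h.to_subtype
  have : Countable (G ⧸ C) := Function.Injective.countable
    (f := fun q : G ⧸ C => (⟨q.out * g * q.out⁻¹, q.out, rfl⟩ : cl g)) fun q q' e =>
      q.out_eq.symm.trans ((QuotientGroup.eq.2 ((hC _ _).2 (congrArg Subtype.val e))).trans
        q'.out_eq)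
  have := C.quotient_finite_of_isOpen (open_of_sigma C
    (Set.isClosed_centralizer _).isCompact.isSigmaCompact)
  refine (finite_range fun q : G ⧸ C => q.out * g * q.out⁻¹).subset ?_
  rintro _ ⟨c, rfl⟩
  exact ⟨c, (hC _ _).1 (QuotientGroup.eq.1 (QuotientGroup.out_eq' (c : G ⧸ C)))⟩

theorem sigma_closure [IsTopologicalGroup G] [CompactSpace G] (g : G) :
    IsSigmaCompact (Subgroup.closure (cl g) : Set G) := by
  have h0 : IsCompact (cl g) := isCompact_range (by fun_prop)
  have h1 : ∀ n : ℕ, IsCompact ((cl g ∪ (cl g)⁻¹) ^ n) := fun n => by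
    induction n with
    | zero => rw [pow_zero]; exact isCompact_singleton
    | succ n ih => rw [pow_succ]; exact ih.mul (h0.union h0.inv)
  refine ⟨_, h1, Subset.antisymm (iUnion_subset fun n => ?_) fun x hx => ?_⟩
  · induction n with
    | zero => rw [pow_zero]; exact singleton_subset_iff.2 (one_mem _)
    | succ n ih =>
      rintro _ ⟨a, ha, b, hb, rfl⟩
      exact mul_mem (ih ha) (hb.elim (fun h => Subgroup.subset_closure h)
        fun h => inv_mem_iff.1 (Subgroup.subset_closure h))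
  · induction hx using Subgroup.closure_induction'' with
    | mem x hx => exact mem_iUnion.2 ⟨1, by rw [pow_one]; exact .inl hx⟩
    | inv_mem x hx => exact mem_iUnion.2 ⟨1, by rw [pow_one]; exact .inr (inv_mem_inv.2 hx)⟩
    | one => exact mem_iUnion.2 ⟨0, by rw [pow_zero]; rfl⟩
    | mul x y _ _ hx hy =>
      obtain ⟨n, hn⟩ := mem_iUnion.1 hx
      obtain ⟨m, hm⟩ := mem_iUnion.1 hy
      exact mem_iUnion.2 ⟨n + m, by rw [pow_add]; exact mul_mem_mul hn hm⟩

omit [TopologicalSpace G] in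
theorem normal_closure (g : G) : (Subgroup.closure (cl g)).Normal := ⟨fun x hx c => by
  induction hx using Subgroup.closure_induction with
  | mem x hx =>
    obtain ⟨d, rfl⟩ := hx
    exact Subgroup.subset_closure ⟨c * d, by simp only; group⟩
  | one => simp
  | mul x y _ _ hx hy => simpa [mul_assoc] using mul_mem hx hy
  | inv x _ hx => simpa [mul_assoc] using inv_mem hx⟩

/-- A stage of the construction. -/
structure St (G : Type*) [Group G] [TopologicalSpace G] where
  V : Subgroup G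
  E : Set G
  nm : V.Normal
  op : IsOpen (V : Set G)
  fin : E.Finite
  sub : E ⊆ fc G
  inv : Inv E

theorem step [NonarchimedeanGroup G] [CompactSpace G] [T2Space G] [Infinite (fc G)] (d : ℕ → G)
    (m : ℕ) (s : St G) : ∃ t : St G × G, t.1.V ≤ s.V ∧ t.2 ∈ s.V ∧ t.2 ∉ t.1.V ∧ s.E ⊆ t.1.E ∧
      (∀ e ∈ s.E, e * t.2 ∈ t.1.E) ∧
      ∃ z, ∀ i ≤ m, ∀ n ≤ m, ∀ e ∈ t.1.E ^ n, e⁻¹ * ((d i)⁻¹ * z) ∉ t.1.V := by
  have := s.V.quotient_finite_of_isOpen s.op
  obtain ⟨a, b, hab, e⟩ := Finite.exists_ne_map_eq_of_infinite fun a : fc G => ((a : G) : G ⧸ s.V)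
  have hx : (a : G)⁻¹ * b ∈ fc G := mul_mem (inv_mem a.2) b.2
  have hV : (a : G)⁻¹ * b ∈ s.V := QuotientGroup.eq.1 e
  have h1 : (a : G)⁻¹ * b ≠ 1 := fun h => hab (Subtype.ext (inv_mul_eq_one.1 h))
  generalize (a : G)⁻¹ * b = x at hx hV h1
  have f1 : ∀ e ∈ s.E ∪ s.E * {x}, e ∈ fc G := by
    rintro _ (h | ⟨e, he, _, rfl, rfl⟩)
    exacts [s.sub h, mul_mem (s.sub he) hx]
  have f2 : (hull (s.E ∪ s.E * {x})).Finite :=
    (s.fin.union (s.fin.mul (finite_singleton x))).biUnion fun e he =>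
      Set.Finite.union (f1 e he) (inv_mem (f1 e he) : e⁻¹ ∈ fc G)
  have f3 : hull (s.E ∪ s.E * {x}) ⊆ fc G := fun e he => by
    obtain ⟨a, ha, h⟩ := mem_iUnion₂.1 he
    rcases h with ⟨c, rfl⟩ | ⟨c, rfl⟩
    exacts [fc_conj (f1 a ha) c, fc_conj (inv_mem (f1 a ha)) c]
  have f4 : (⋃ i ≤ m, ⋃ n ≤ m, {d i} * hull (s.E ∪ s.E * {x}) ^ n).Finite :=
    (finite_Iic m).biUnion fun i _ => (finite_Iic m).biUnion fun n _ =>
      (finite_singleton _).mul (fin_pow f2 n)
  have : Infinite G := .of_injective _ (fc G).subtype_injective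
  obtain ⟨z, hz⟩ := f4.exists_notMem
  obtain ⟨V, v1, v2, v3⟩ := exists_normal (inter_mem (s.op.mem_nhds (one_mem _))
    (((f4.image fun a => a⁻¹ * z).insert x).isClosed.isOpen_compl.mem_nhds (by
      rintro (h | ⟨a, ha, h⟩)
      exacts [h1 h.symm, hz (inv_mul_eq_one.1 h ▸ ha)])))
  refine ⟨(⟨V, _, v1, v2, f2, f3, inv_hull _⟩, x), fun y hy => (v3 hy).1, hV,
    fun h => (v3 h).2 (.inl rfl), fun e he => sub_hull _ (.inl he),
    fun e he => sub_hull _ (.inr (mul_mem_mul he rfl)), z, fun i hi n hn e he h =>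
      (v3 h).2 (.inr ⟨d i * e, mem_biUnion hi (mem_biUnion hn (mul_mem_mul rfl he)), ?_⟩)⟩
  simp only
  group

theorem thin [NonarchimedeanGroup G] [CompactSpace G] [T2Space G]
    [TopologicalSpace.SeparableSpace G] [Infinite (fc G)] :
    ∃ N : Subgroup G, N.Normal ∧ IsSigmaCompact (N : Set G) ∧ Uncountable N ∧
      Uncountable (G ⧸ N) := by
  obtain ⟨d, hd⟩ := TopologicalSpace.exists_dense_seq G
  choose F h1 h2 h3 h4 h5 h6 using step d
  let s : ℕ → St G := Nat.rec ⟨⊤, {1}, inferInstance, isOpen_univ, finite_singleton _,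
    singleton_subset_iff.2 (one_mem _), by simp [Inv]⟩ fun m t => (F m t).1
  let x : ℕ → G := fun m => (F m (s m)).2
  let K : ℕ → Set G := fun n => {y | ∀ m, ∃ e ∈ (s m).E ^ n, e⁻¹ * y ∈ (s m).V}
  have cV : ∀ m (e : G), IsClosed {y | e⁻¹ * y ∈ (s m).V} := fun m e =>
    ((s m).V.isClosed_of_isOpen (s m).op).preimage (continuous_const_mul _)
  have hK : ∀ n, IsClosed (K n) := fun n => by
    have : K n = ⋂ m, ⋃ e ∈ (s m).E ^ n, {y | e⁻¹ * y ∈ (s m).V} := by
      ext y
      simp [K]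
    rw [this]
    exact isClosed_iInter fun m => (fin_pow (s m).fin n).isClosed_biUnion fun e _ => cV m e
  let N : Subgroup G :=
    { carrier := ⋃ n, K n
      one_mem' := mem_iUnion.2 ⟨0, fun m => ⟨1, by simp, by simp⟩⟩
      mul_mem' := fun {a b} ha hb => by
        obtain ⟨n, hn⟩ := mem_iUnion.1 ha
        obtain ⟨l, hl⟩ := mem_iUnion.1 hb
        refine mem_iUnion.2 ⟨n + l, fun m => ?_⟩
        obtain ⟨e, e1, e2⟩ := hn m
        obtain ⟨f, f1, f2⟩ := hl m
        refine ⟨e * f, by rw [pow_add]; exact mul_mem_mul e1 f1, ?_⟩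
        convert mul_mem ((s m).nm.conj_mem _ e2 f⁻¹) f2 using 1
        group
      inv_mem' := fun {a} ha => by
        obtain ⟨n, hn⟩ := mem_iUnion.1 ha
        refine mem_iUnion.2 ⟨n, fun m => ?_⟩
        obtain ⟨e, e1, e2⟩ := hn m
        refine ⟨e⁻¹, ((s m).inv.pow n e e1).1, ?_⟩
        convert (s m).nm.conj_mem _ (inv_mem e2) e using 1
        group }
  refine ⟨N, ⟨fun a ha c => ?_⟩, ⟨K, fun n => (hK n).isCompact, rfl⟩, ?_,
    not_countable_iff.1 fun _ => ?_⟩
  · obtain ⟨n, hn⟩ := mem_iUnion.1 ha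
    refine mem_iUnion.2 ⟨n, fun m => ?_⟩
    obtain ⟨e, e1, e2⟩ := hn m
    refine ⟨_, ((s m).inv.pow n e e1).2 c, ?_⟩
    convert (s m).nm.conj_mem _ e2 c using 1
    group
  · let p : Set ℕ → ℕ → G := fun A => Nat.rec 1 fun m t => t * A.mulIndicator x m
    have p1 : ∀ A m, p A m ∈ (s m).E := fun A m => by
      induction m with
      | zero => rfl
      | succ m ih =>
        change p A m * A.mulIndicator x m ∈ _
        by_cases h : m ∈ A
        · rw [mulIndicator_of_mem h]
          exact h5 m _ _ ih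
        · rw [mulIndicator_of_notMem h, mul_one]
          exact h4 m _ ih
    have p2 : ∀ A, (⋂ m, {y | (p A m)⁻¹ * y ∈ (s m).V}).Nonempty := fun A =>
      IsCompact.nonempty_iInter_of_sequence_nonempty_isCompact_isClosed _ (fun m y hy => by
        have : A.mulIndicator x m ∈ (s m).V := by
          by_cases h : m ∈ A
          · rw [mulIndicator_of_mem h]
            exact h2 m _
          · rw [mulIndicator_of_notMem h]
            exact one_mem _
        have h := mul_mem this (h1 m _ hy)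
        change _ * ((p A m * A.mulIndicator x m)⁻¹ * y) ∈ _ at h
        simpa [mul_assoc] using h) (fun m => ⟨p A m, by simp⟩) (cV 0 _).isCompact fun m => cV m _
    choose y hy using p2
    have : Uncountable (Set ℕ) := not_countable_iff.1 fun _ =>
      let ⟨f, hf⟩ := exists_surjective_nat (Set ℕ); Function.cantor_surjective f hf
    refine Function.Injective.uncountable (f := fun A => (⟨y A, mem_iUnion.2 ⟨1, fun m =>
      ⟨_, by rw [pow_one]; exact p1 A m, mem_iInter.1 (hy A) m⟩⟩⟩ : N)) fun A B e => ?_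
    replace e : y A = y B := congrArg Subtype.val e
    have q : ∀ m, p A m = p B m → (m ∈ A ↔ m ∈ B) := fun m hm => by
      have h := (s (m + 1)).V.mul_mem (mem_iInter.1 (hy A) (m + 1))
        ((s (m + 1)).V.inv_mem (mem_iInter.1 (hy B) (m + 1)))
      change (p A m * A.mulIndicator x m)⁻¹ * y A * ((p B m * B.mulIndicator x m)⁻¹ * y B)⁻¹ ∈ _
        at h
      have h0 : x m ∉ (s (m + 1)).V := h3 m _
      by_cases a : m ∈ A <;> by_cases b : m ∈ B <;> simp_all [mul_assoc]
    have r : ∀ m, p A m = p B m := fun m => by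
      induction m with
      | zero => rfl
      | succ m ih =>
        change p A m * A.mulIndicator x m = p B m * B.mulIndicator x m
        have := q m ih
        by_cases a : m ∈ A <;> simp_all
    exact Set.ext fun m => q m (r m)
  · obtain ⟨n, w, hw⟩ := baire N K hK subset_rfl
    obtain ⟨T, hT⟩ := isCompact_univ.elim_finite_subcover
      (fun i => (fun z => (d i)⁻¹ * z) ⁻¹' interior (K n))
      (fun i => isOpen_interior.preimage (continuous_const_mul _)) fun z _ => by
        obtain ⟨i, hi⟩ := hd.exists_mem_open (s := (fun g => g⁻¹ * z) ⁻¹' interior (K n))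
          (isOpen_interior.preimage (by fun_prop)) ⟨z * w⁻¹, by simpa using hw⟩
        exact mem_iUnion.2 ⟨i, hi⟩
    obtain ⟨z, hz⟩ := h6 (T.sup id + n) (s _)
    obtain ⟨i, i1, i2⟩ := mem_iUnion₂.1 (hT (mem_univ z))
    obtain ⟨e, e1, e2⟩ := interior_subset i2 (T.sup id + n + 1)
    exact hz i ((Finset.le_sup (f := id) i1).trans (Nat.le_add_right _ _)) n (Nat.le_add_left _ _)
      e e1 e2

theorem dichotomy [NonarchimedeanGroup G] [CompactSpace G] [T2Space G]
    [TopologicalSpace.SeparableSpace G] (h : ¬ ∃ N : Subgroup G, N.Normal ∧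
      IsSigmaCompact (N : Set G) ∧ Uncountable N ∧ Uncountable (G ⧸ N)) :
    Finite (fc G) ∧ ∀ N : Subgroup G, N.Normal → Finite N ∨ IsOpen (N : Set G) := by
  have hf : Finite (fc G) := not_infinite_iff_finite.1 fun _ => h thin
  refine ⟨hf, fun N hN => ?_⟩
  by_cases e : N ≤ fc G
  · exact .inl (.of_injective _ (Subgroup.inclusion_injective e))
  obtain ⟨g, g1, g2⟩ := SetLike.not_le_iff_exists.1 e
  refine .inr (Subgroup.isOpen_mono (H₁ := Subgroup.closure (cl g))
    ((Subgroup.closure_le _).2 fun _ ⟨c, e⟩ => e ▸ hN.conj_mem g g1 c) ?_)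
  have : Countable (G ⧸ Subgroup.closure (cl g)) := not_uncountable_iff.1 fun hu =>
    h ⟨_, normal_closure g, sigma_closure g, not_countable_iff.1 fun hc => g2 (fc_of_countable
      ((countable_coe_iff.1 hc).mono Subgroup.subset_closure)), hu⟩
  exact open_of_sigma _ (sigma_closure g)

end Pool.Agent.P.MP_847604_al.H80
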