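import Mathlib

/-! Normal subgroups of SL(2,R), for R a valuation domain in which 2 is a unit:
a normal subgroup with an element other than 1, -1 contains a congruence subgroup. -/

set_option autoImplicit false

namespace Pool.Agent.P.MP_847604_al

open Matrix

variable {R : Type*} [CommRing R]

/-- the element of SL(2,R) with the given entries -/
def mk2 (a b c d : R) (h : a * d - b * c = 1) : SpecialLinearGroup (Fin 2) R :=
  ⟨!![a, b; c, d], by rw [Matrix.det_fin_two_of]; exact h⟩

@[simp] lemma mk2_00 (a b c d : R) (h : a * d - b * c = 1) : mk2 a b c d h 0 0 = a := rfl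
@[simp] lemma mk2_01 (a b c d : R) (h : a * d - b * c = 1) : mk2 a b c d h 0 1 = b := rfl
@[simp] lemma mk2_10 (a b c d : R) (h : a * d - b * c = 1) : mk2 a b c d h 1 0 = c := rfl
@[simp] lemma mk2_11 (a b c d : R) (h : a * d - b * c = 1) : mk2 a b c d h 1 1 = d := rfl

lemma ext2 {g h : SpecialLinearGroup (Fin 2) R} (h00 : g 0 0 = h 0 0) (h01 : g 0 1 = h 0 1)
    (h10 : g 1 0 = h 1 0) (h11 : g 1 1 = h 1 1) : g = h := by
  ext i j
  fin_cases i <;> fin_cases j
  · exact h00
  · exact h01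
  · exact h10
  · exact h11

lemma det2 (g : SpecialLinearGroup (Fin 2) R) : g 0 0 * g 1 1 - g 0 1 * g 1 0 = 1 := by
  have := g.det_coe
  rw [Matrix.det_fin_two] at this
  exact this

lemma mul2 (g h : SpecialLinearGroup (Fin 2) R) (i j : Fin 2) :
    (g * h) i j = g i 0 * h 0 j + g i 1 * h 1 j := by
  change (g.1 * h.1) i j = _
  rw [Matrix.mul_apply, Fin.sum_univ_two]

lemma one2_00 : (1 : SpecialLinearGroup (Fin 2) R) 0 0 = 1 := rfl
lemma one2_01 : (1 : SpecialLinearGroup (Fin 2) R) 0 1 = 0 := rfl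
lemma one2_10 : (1 : SpecialLinearGroup (Fin 2) R) 1 0 = 0 := rfl
lemma one2_11 : (1 : SpecialLinearGroup (Fin 2) R) 1 1 = 1 := rfl

lemma inv2 (g : SpecialLinearGroup (Fin 2) R) :
    g⁻¹ = mk2 (g 1 1) (-g 0 1) (-g 1 0) (g 0 0) (by linear_combination det2 g) := by
  apply inv_eq_of_mul_eq_one_right
  apply ext2
  · rw [mul2, one2_00]; simp only [mk2_00, mk2_10]; linear_combination det2 g
  · rw [mul2, one2_01]; simp only [mk2_01, mk2_11]; ring
  · rw [mul2, one2_10]; simp only [mk2_00, mk2_10]; ring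
  · rw [mul2, one2_11]; simp only [mk2_01, mk2_11]; linear_combination det2 g

/-- upper unipotent -/
def up (t : R) : SpecialLinearGroup (Fin 2) R := mk2 1 t 0 1 (by ring)
/-- lower unipotent -/
def lo (t : R) : SpecialLinearGroup (Fin 2) R := mk2 1 0 t 1 (by ring)
/-- the Weyl element -/
def wl : SpecialLinearGroup (Fin 2) R := mk2 0 (-1) 1 0 (by ring)
/-- minus the identity -/
def ng : SpecialLinearGroup (Fin 2) R := mk2 (-1) 0 0 (-1) (by ring)

variable {N : Subgroup (SpecialLinearGroup (Fin 2) R)}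

lemma comm_mem (hN : N.Normal) {g : SpecialLinearGroup (Fin 2) R} (hg : g ∈ N)
    (k : SpecialLinearGroup (Fin 2) R) : g * k * g⁻¹ * k⁻¹ ∈ N := by
  have := N.mul_mem hg (hN.conj_mem _ (N.inv_mem hg) k)
  simpa only [mul_assoc] using this

lemma up_of_upper (hN : N.Normal) {g : SpecialLinearGroup (Fin 2) R} (hg : g ∈ N)
    (h10 : g 1 0 = 0) (ha : g 0 0 ^ 2 ≠ 1) : ∃ t : R, t ≠ 0 ∧ up t ∈ N := by
  refine ⟨g 0 0 ^ 2 - 1, sub_ne_zero.2 ha, ?_⟩
  have h := comm_mem hN hg (up 1)
  have hd := det2 g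
  rw [h10] at hd
  convert h using 1
  apply ext2 <;>
    simp only [inv2, mul2, up, mk2_00, mk2_01, mk2_10, mk2_11, h10]
  · linear_combination -hd
  · linear_combination hd
  · ring
  · linear_combination -hd

lemma up_of_eigen [IsDomain R] [ValuationRing R] (hN : N.Normal)
    {h : SpecialLinearGroup (Fin 2) R} (hh : h ∈ N) (h10 : h 1 0 ≠ 0) (l : R)
    (hl : l ^ 2 - (h 0 0 + h 1 1) * l + 1 = 0) (hl2 : l ^ 2 ≠ 1) :
    ∃ t : R, t ≠ 0 ∧ up t ∈ N := by
  have hd := det2 h
  rcases ValuationRing.dvd_total (l - h 1 1) (h 1 0) with ⟨t, ht⟩ | ⟨t, ht⟩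
  · have hne : l - h 1 1 ≠ 0 := by
      intro h0
      rw [h0, zero_mul] at ht
      exact h10 ht
    have e0 : h 0 0 + h 0 1 * t = l := by
      apply mul_left_cancel₀ hne
      linear_combination -hd - hl - h 0 1 * ht
    have hm := hN.conj_mem _ hh (lo t)⁻¹
    apply up_of_upper hN hm
    · simp only [inv2, mul2, lo, mk2_00, mk2_01, mk2_10, mk2_11]
      linear_combination ht - t * e0
    · simp only [inv2, mul2, lo, mk2_00, mk2_01, mk2_10, mk2_11]
      intro h0
      apply hl2
      rw [← e0]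
      linear_combination h0
  · have e0 : h 0 0 * t + h 0 1 = l * t := by
      apply mul_left_cancel₀ h10
      linear_combination -hd - hl - (h 0 0 - l) * ht
    have hm := hN.conj_mem _ hh (mk2 t (-1) 1 0 (by ring))⁻¹
    apply up_of_upper hN hm
    · simp only [inv2, mul2, mk2_00, mk2_01, mk2_10, mk2_11]
      linear_combination -e0 - t * ht
    · simp only [inv2, mul2, mk2_00, mk2_01, mk2_10, mk2_11]
      intro h0
      apply hl2
      have : l = h 1 0 * t + h 1 1 := by linear_combination ht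
      rw [this]
      linear_combination h0

lemma unit_add [IsLocalRing R] {u m : R} (hu : IsUnit u) (hm : ¬ IsUnit m) (y : R) :
    IsUnit (u + m * y) := by
  by_contra h
  have h1 : u + m * y ∈ IsLocalRing.maximalIdeal R := h
  have h2 : m * y ∈ IsLocalRing.maximalIdeal R :=
    Ideal.mul_mem_right _ _ (show m ∈ IsLocalRing.maximalIdeal R from hm)
  have h3 := Ideal.sub_mem _ h1 h2
  rw [add_sub_cancel_right] at h3
  exact h3 hu

lemma up_of_lower_ne [IsDomain R] [ValuationRing R] {m : R} (hm0 : m ≠ 0) (hm : ¬ IsUnit m)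
    (h2 : IsUnit (2 : R)) (hN : N.Normal) {g : SpecialLinearGroup (Fin 2) R} (hg : g ∈ N)
    (h10 : g 1 0 ≠ 0) : ∃ t : R, t ≠ 0 ∧ up t ∈ N := by
  have hd := det2 g
  set c := g 1 0 with hc
  obtain ⟨v, hv⟩ := (unit_add isUnit_one hm c).exists_right_inv
  have hu2 : (2 + m * c) ≠ 0 := (unit_add h2 hm c).ne_zero
  have hu3 : (2 + m * (2 * c + m * c ^ 2)) ≠ 0 := (unit_add h2 hm _).ne_zero
  have hv0 : v ≠ 0 := by
    intro h0
    rw [h0, mul_zero] at hv
    exact zero_ne_one hv
  set x := m * (2 + m * c) * v with hx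
  have hx0 : x ≠ 0 := mul_ne_zero (mul_ne_zero hm0 hu2) hv0
  have hh := comm_mem hN hg (up x)
  have hxc : x * c = (1 + m * c) - v := by
    rw [hx]
    linear_combination (1 + m * c) * hv
  apply up_of_eigen hN hh ?_ ((1 + m * c) ^ 2)
  · simp only [inv2, mul2, up, mk2_00, mk2_01, mk2_10, mk2_11, ← hc]
    have e : (1 + m * c) ^ 2 * (x * c) ^ 2 = ((1 + m * c) ^ 2 - 1) ^ 2 := by
      have : (1 + m * c) * (x * c) = (1 + m * c) ^ 2 - 1 := by
        rw [hxc]; linear_combination -hv
      rw [← this]; ring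
    linear_combination -e - 2 * (1 + m * c) ^ 2 * hd
  · intro h0
    have : (m * c) * (2 + m * c) * (2 + m * (2 * c + m * c ^ 2)) = 0 := by
      linear_combination h0
    exact mul_ne_zero (mul_ne_zero (mul_ne_zero hm0 h10) hu2) hu3 this
  · simp only [inv2, mul2, up, mk2_00, mk2_01, mk2_10, mk2_11, ← hc]
    intro h0
    have : x * c * c = 0 := by linear_combination -h0
    exact mul_ne_zero (mul_ne_zero hx0 h10) h10 this

lemma up_of_ne [IsDomain R] [ValuationRing R] {m : R} (hm0 : m ≠ 0) (hm : ¬ IsUnit m)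
    (h2 : IsUnit (2 : R)) (hN : N.Normal) {g : SpecialLinearGroup (Fin 2) R} (hg : g ∈ N)
    (h1 : g ≠ 1) (hn : g ≠ ng) : ∃ t : R, t ≠ 0 ∧ up t ∈ N := by
  by_cases h10 : g 1 0 = 0
  · by_cases h01 : g 0 1 = 0
    · apply up_of_upper hN hg h10
      intro ha
      have hd := det2 g
      rw [h10, mul_zero, sub_zero] at hd
      have : (g 0 0 - 1) * (g 0 0 + 1) = 0 := by linear_combination ha
      rcases mul_eq_zero.1 this with h | h
      · apply h1
        have e : g 0 0 = 1 := by linear_combination h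
        apply ext2
        · exact e
        · exact h01
        · exact h10
        · rw [e, one_mul] at hd; exact hd
      · apply hn
        have e : g 0 0 = -1 := by linear_combination h
        apply ext2
        · exact e
        · exact h01
        · exact h10
        · rw [e] at hd
          change g 1 1 = -1
          linear_combination -hd
    · apply up_of_lower_ne hm0 hm h2 hN (hN.conj_mem _ hg wl)
      simp only [inv2, mul2, wl, mk2_00, mk2_01, mk2_10, mk2_11]
      intro h0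
      apply h01
      linear_combination -h0
  · exact up_of_lower_ne hm0 hm h2 hN hg h10

lemma up_sq (hN : N.Normal) {t : R} (ht : up t ∈ N) {u : R} (hu : IsUnit u) :
    up (u ^ 2 * t) ∈ N := by
  obtain ⟨v, hv⟩ := hu.exists_right_inv
  have := hN.conj_mem _ ht (mk2 u 0 0 v (by linear_combination hv))
  convert this using 1
  apply ext2 <;> simp only [inv2, mul2, up, mk2_00, mk2_01, mk2_10, mk2_11]
  · linear_combination -hv
  · ring
  · ring
  · linear_combination -hv

lemma up_spread [IsLocalRing R] {m : R} (hm : ¬ IsUnit m) (hN : N.Normal) {t : R}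
    (ht : up t ∈ N) (y : R) : up (m * (4 * t) * y) ∈ N := by
  have h1 := up_sq hN ht (unit_add isUnit_one hm y)
  have h2 := up_sq hN ht (unit_add isUnit_one hm (-y))
  have := N.mul_mem h1 (N.inv_mem h2)
  convert this using 1
  apply ext2 <;> simp only [inv2, mul2, up, mk2_00, mk2_01, mk2_10, mk2_11] <;> ring

lemma lo_of_up (hN : N.Normal) {t : R} (ht : up (-t) ∈ N) : lo t ∈ N := by
  have := hN.conj_mem _ ht wl
  convert this using 1
  apply ext2 <;> simp only [inv2, mul2, up, lo, wl, mk2_00, mk2_01, mk2_10, mk2_11] <;> ring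

lemma mem_of_cong [IsLocalRing R] (hN : N.Normal) {s : R} (hs : ¬ IsUnit s)
    (hup : ∀ y : R, up (s * y) ∈ N) {h : SpecialLinearGroup (Fin 2) R}
    (ha : s ^ 2 ∣ h 0 0 - 1) (hb : s ∣ h 0 1) (hc : s ∣ h 1 0) : h ∈ N := by
  have hlo : ∀ y : R, lo (s * y) ∈ N := fun y => by
    apply lo_of_up hN
    have := hup (-y)
    rwa [mul_neg] at this
  obtain ⟨z, hz⟩ := ha
  obtain ⟨b, hb⟩ := hb
  obtain ⟨c, hc⟩ := hc
  have ea : h 0 0 = 1 + s * (s * z) := by linear_combination hz
  obtain ⟨v, hv⟩ := (unit_add isUnit_one hs (s * z)).exists_right_inv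
  have hd := det2 h
  have := N.mul_mem (N.mul_mem (N.mul_mem (hlo ((c - z) * v)) (hup 1)) (hlo z)) (hup ((b - 1) * v))
  convert this using 1
  rw [ea, hb, hc] at hd
  apply ext2 <;> simp only [mul2, up, lo, mk2_00, mk2_01, mk2_10, mk2_11]
  · rw [ea]; ring
  · rw [hb]; linear_combination -(s * (b - 1)) * hv
  · rw [hc]; linear_combination -(s * (c - z)) * hv
  · linear_combination v * hd - (h 1 1 - 1 + s ^ 2 * (b - 1) * (c - z) * v) * hv

/-- A normal subgroup with an element other than 1 and -1 contains a congruence subgroup. -/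
theorem exists_level [IsDomain R] [ValuationRing R] {m : R} (hm0 : m ≠ 0) (hm : ¬ IsUnit m)
    (h2 : IsUnit (2 : R)) (hN : N.Normal) {g : SpecialLinearGroup (Fin 2) R} (hg : g ∈ N)
    (h1 : g ≠ 1) (hn : g ≠ ng) :
    ∃ s : R, s ≠ 0 ∧ ∀ h : SpecialLinearGroup (Fin 2) R,
      s ^ 2 ∣ h 0 0 - 1 → s ∣ h 0 1 → s ∣ h 1 0 → h ∈ N := by
  obtain ⟨t, ht0, ht⟩ := up_of_ne hm0 hm h2 hN hg h1 hn
  have h4 : (4 : R) ≠ 0 := by
    have : (4 : R) = 2 * 2 := by norm_num
    rw [this]
    exact mul_ne_zero h2.ne_zero h2.ne_zero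
  refine ⟨m * (4 * t), mul_ne_zero hm0 (mul_ne_zero h4 ht0), fun h ha hb hc => ?_⟩
  refine mem_of_cong hN ?_ (up_spread hm hN ht) ha hb hc
  intro hu
  exact hm (isUnit_of_mul_isUnit_left hu)

end Pool.Agent.P.MP_847604_al
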