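import Mathlib
import Pool.Agent.P.MP_847604_al.SL2Alg

/-! Negative answer to Q1 and Q2: the group SL(2, Z_3) is an uncountable non-archimedean compact
metrizable group, and each of its normal subgroups (no definability assumed) is finite or has
finite index. -/

set_option autoImplicit false

namespace Pool.Agent.Results.MP_847604_al.SL2Counter

open Matrix Topology Pool.Agent.P.MP_847604_al

private lemma dvd_of_norm_lt {s z : ℤ_[3]} (h : ‖z‖ < ‖s‖) : s ∣ z := by
  rcases ValuationRing.dvd_total s z with h1 | ⟨w, hw⟩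
  · exact h1
  · exfalso
    have : ‖s‖ ≤ ‖z‖ := by
      rw [hw, norm_mul]
      exact mul_le_of_le_one_right (norm_nonneg _) (PadicInt.norm_le_one w)
    exact absurd h (not_lt.2 this)

private lemma uncountable_padic : Uncountable ℤ_[3] := by
  rw [← not_countable_iff]
  intro hc
  have h1 : ∃ x : ℤ_[3], (interior ({x} : Set ℤ_[3])).Nonempty := by
    apply nonempty_interior_of_iUnion_of_closed (f := fun x : ℤ_[3] => ({x} : Set ℤ_[3]))
    · intro x; exact isClosed_singleton
    · ext x; simp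
  obtain ⟨x, y, hy⟩ := h1
  have hyx : y = x := Set.mem_singleton_iff.1 (interior_subset hy)
  subst hyx
  have ho : IsOpen ({y} : Set ℤ_[3]) := by
    have : interior ({y} : Set ℤ_[3]) = {y} :=
      Set.Subset.antisymm interior_subset (by simpa using hy)
    rw [← this]; exact isOpen_interior
  have : DiscreteTopology ℤ_[3] := by
    apply discreteTopology_of_isOpen_singleton_zero
    have h2 := (Homeomorph.addRight y).isOpen_preimage.2 ho
    convert h2 using 1
    ext z; simp
  have : Finite ℤ_[3] := finite_of_compact_of_discrete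
  exact not_finite ℤ_[3]

theorem result :
    ∃ (G : Type) (_ : Group G) (_ : TopologicalSpace G),
      NonarchimedeanGroup G ∧ CompactSpace G ∧ TopologicalSpace.MetrizableSpace G ∧
      Uncountable G ∧
      ∀ N : Subgroup G, N.Normal → Finite N ∨ Finite (G ⧸ N) := by
  have hemb : IsClosedEmbedding
      ((↑) : SpecialLinearGroup (Fin 2) ℤ_[3] → Matrix (Fin 2) (Fin 2) ℤ_[3]) :=
    SpecialLinearGroup.isClosedEmbedding_val
  have hc0 : CompactSpace (Matrix (Fin 2) (Fin 2) ℤ_[3]) :=
    inferInstanceAs (CompactSpace (Fin 2 → Fin 2 → ℤ_[3]))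
  have hm0 : TopologicalSpace.MetrizableSpace (Matrix (Fin 2) (Fin 2) ℤ_[3]) :=
    inferInstanceAs (TopologicalSpace.MetrizableSpace (Fin 2 → Fin 2 → ℤ_[3]))
  have ht0 : TotallyDisconnectedSpace (Matrix (Fin 2) (Fin 2) ℤ_[3]) :=
    inferInstanceAs (TotallyDisconnectedSpace (Fin 2 → Fin 2 → ℤ_[3]))
  have hc : CompactSpace (SpecialLinearGroup (Fin 2) ℤ_[3]) := hemb.compactSpace
  have hm : TopologicalSpace.MetrizableSpace (SpecialLinearGroup (Fin 2) ℤ_[3]) :=
    hemb.isEmbedding.metrizableSpace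
  have ht : TotallyDisconnectedSpace (SpecialLinearGroup (Fin 2) ℤ_[3]) :=
    ⟨hemb.isEmbedding.isTotallyDisconnected (isTotallyDisconnected_of_totallyDisconnectedSpace _)⟩
  refine ⟨SpecialLinearGroup (Fin 2) ℤ_[3], inferInstance, inferInstance, ?_, hc, hm, ?_, ?_⟩
  · refine { is_nonarchimedean := fun U hU => ?_ }
    obtain ⟨V, hVU, hV, h1⟩ := mem_nhds_iff.1 hU
    obtain ⟨H, hH⟩ := ProfiniteGrp.exist_openNormalSubgroup_sub_open_nhds_of_one hV h1
    exact ⟨H.toOpenSubgroup, hH.trans hVU⟩
  · have := uncountable_padic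
    have hinj : Function.Injective (up : ℤ_[3] → SpecialLinearGroup (Fin 2) ℤ_[3]) := by
      intro x y hxy
      exact congrArg (fun g : SpecialLinearGroup (Fin 2) ℤ_[3] => g 0 1) hxy
    exact hinj.uncountable
  · intro N hN
    by_cases hg : ∃ g ∈ N, g ≠ 1 ∧ g ≠ ng
    · right
      obtain ⟨g, hg, h1, hn⟩ := hg
      have h3 : ¬ IsUnit ((3 : ℕ) : ℤ_[3]) := by
        rw [PadicInt.not_isUnit_iff, PadicInt.norm_lt_one_iff_dvd]
      have h2 : IsUnit (2 : ℤ_[3]) := by
        by_contra h
        rw [PadicInt.not_isUnit_iff] at h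
        have := (PadicInt.norm_int_lt_one_iff_dvd (p := 3) 2).1 (by simpa using h)
        omega
      obtain ⟨s, hs0, hs⟩ := exists_level (m := ((3 : ℕ) : ℤ_[3])) (by simp) h3 h2 hN hg h1 hn
      apply Subgroup.quotient_finite_of_isOpen
      apply Subgroup.isOpen_of_mem_nhds (g := 1)
      have hpos : 0 < ‖s‖ := norm_pos_iff.2 hs0
      have hpos2 : 0 < ‖s ^ 2‖ := norm_pos_iff.2 (pow_ne_zero 2 hs0)
      have hcont : ∀ i j : Fin 2,
          Continuous fun h : SpecialLinearGroup (Fin 2) ℤ_[3] => h i j := fun i j => by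
        fun_prop
      have o1 : IsOpen {h : SpecialLinearGroup (Fin 2) ℤ_[3] | ‖h 0 0 - 1‖ < ‖s ^ 2‖} :=
        isOpen_lt ((hcont 0 0).sub continuous_const).norm continuous_const
      have o2 : IsOpen {h : SpecialLinearGroup (Fin 2) ℤ_[3] | ‖h 0 1‖ < ‖s‖} :=
        isOpen_lt (hcont 0 1).norm continuous_const
      have o3 : IsOpen {h : SpecialLinearGroup (Fin 2) ℤ_[3] | ‖h 1 0‖ < ‖s‖} :=
        isOpen_lt (hcont 1 0).norm continuous_const
      refine Filter.mem_of_superset (((o1.inter o2).inter o3).mem_nhds ⟨⟨?_, ?_⟩, ?_⟩) ?_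
      · simpa [one2_00] using hpos2
      · simpa [one2_01] using hpos
      · simpa [one2_10] using hpos
      · rintro h ⟨⟨a1, a2⟩, a3⟩
        exact hs h (dvd_of_norm_lt a1) (dvd_of_norm_lt a2) (dvd_of_norm_lt a3)
    · left
      have hsub : (N : Set (SpecialLinearGroup (Fin 2) ℤ_[3])) ⊆ {1, ng} := by
        intro g hgN
        by_contra hne
        simp only [Set.mem_insert_iff, Set.mem_singleton_iff, not_or] at hne
        exact hg ⟨g, hgN, hne.1, hne.2⟩
      exact (Set.toFinite _).subset hsub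

end Pool.Agent.Results.MP_847604_al.SL2Counter
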